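import Pool.Agent.W315.MD.Final
import Pool.Agent.W209.LB.Conn3
import Pool.Agent.W427.LB.Bicrit

/-!
# Petersen-minor-free r-graphs all of whose bricks are small are class 1

`MGraph r ends`: loopless `r`-regular multigraph on `Fin n` (edges `Fin m`) with at least `r` edges
leaving every odd vertex set.  `MCover 1 r ends`: `1 * r` perfect matchings covering every edge exactly
once.  `Brick H`: deleting any two vertices of `H` leaves a connected graph with a perfect matching.
`OddMinor H G`: `H` is a minor of `G`, with branch sets that have an odd number of vertices.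
-/

set_option autoImplicit false

namespace Pool.Agent.Results.MP_0c2bb8_co.SmallBricks

open H76FC H76TX H76TY H76TW Pool.Agent.W315.LB

/-- Let `G` be an `r`-graph such that every brick `H` that is a minor of `G` with odd branch sets
has at most 13 vertices and no Petersen minor, or is a sum of order at most three of graphs with at most
five vertices, or has a vertex partition into two sides such that any two edges inside the same side
meet.  Then `G` has `r` perfect matchings covering every edge exactly once. -/
theorem result {r n m : ℕ} (ends : Fin m → Sym2 (Fin n)) (hG : MGraph r ends)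
    (hB : ∀ (W : Type) [Fintype W] (H : SimpleGraph W), Brick H →
      OddMinor H (SimpleGraph.fromEdgeSet (Set.range ends)) →
      (Fintype.card W ≤ 13 ∧ ¬ PetMinor H) ∨ Sum5 H ∨
      ∃ c : W → Bool, ∀ a b a' b' : W, H.Adj a b → H.Adj a' b' → c a = c b → c a' = c b' →
        c a = c a' → a = a' ∨ a = b' ∨ b = a' ∨ b = b') : MCover 1 r ends := by
  obtain ⟨hp, _⟩ := toR r n m ends hG
  rw [coverIff 1 r n m ends hG]
  refine main Pool.Agent.W209.LB.conn3 Pool.Agent.W427.LB.bicrit transport H76TW.bip H76TW.span
    tight2 connSide Known (fun V _ _ r p hc hp => eight' V r p (by omega) hp)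
    (fun V _ _ r p _ hp _ _ hk => Or.inl (cover_known hp hk)) _ _ rfl r _ hp ?_
  intro W _ H hH ho
  refine hB W H hH (oddMinor_sub H _ _ id Function.injective_id ?_ ho)
  intro a b hab
  have hmul : ∀ a b : Fin n, mult ends a b ≠ 0 → ∃ e, ends e = s(a, b) := by
    intro a b huv
    unfold mult at huv
    obtain ⟨e, he⟩ := Finset.card_pos.1 (Nat.pos_of_ne_zero huv)
    exact ⟨e, (Finset.mem_filter.1 he).2⟩
  unfold gr at hab
  rw [SimpleGraph.fromRel_adj] at hab
  rw [SimpleGraph.fromEdgeSet_adj]
  refine ⟨?_, hab.1⟩
  rcases hab.2 with h1 | h1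
  · obtain ⟨e, he⟩ := hmul a b (by omega)
    exact ⟨e, he⟩
  · obtain ⟨e, he⟩ := hmul b a (by omega)
    exact ⟨e, by simp only [id]; rw [he, Sym2.eq_swap]⟩

end Pool.Agent.Results.MP_0c2bb8_co.SmallBricks
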